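import Pool.Agent.H8.PNF.EP

/-!
# PNF, dyadic part: the subgroups of points near the origin, and their index
-/

set_option autoImplicit false

namespace Pool.PNF.EP

open WeierstrassCurve.Affine

variable {L : Type*} [Field L] {Γ : Type*} [LinearOrderedCommGroupWithZero Γ] {v : Valuation L Γ}

/-- The points near the origin with `v t ≤ g`. -/
def sub [DecidableEq L] (v : Valuation L Γ) (h2 : (2 : L) ≠ 0) {a b c : L} (ha : v a ≤ 1)
    (hb : v b ≤ 1) (hc : v c ≤ 1) (hr : ∀ x : L, x ^ 3 + a * x ^ 2 + b * x + c ≠ 0) (g : Γ) :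
    AddSubgroup (Pt a b c) where
  carrier := {P | Near v P ∧ v (tt P) ≤ g}
  zero_mem' := by
    refine ⟨near_zero v, ?_⟩
    change v 0 ≤ g
    rw [map_zero]
    exact zero_le
  add_mem' := by
    rintro P Q ⟨hP, hP'⟩ ⟨hQ, hQ'⟩
    obtain ⟨h1, h3⟩ := near_add h2 ha hb hc hr P Q hP hQ
    refine ⟨h1, ?_⟩
    have e : tt (P + Q) = (tt (P + Q) - tt P) + tt P := by ring
    rw [e]
    exact v.map_add_le (h3.trans hQ') hP'
  neg_mem' := by
    rintro P ⟨hP, hP'⟩
    refine ⟨near_neg v hP, ?_⟩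
    rw [tt_neg, Valuation.map_neg]
    exact hP'

lemma mem_sub [DecidableEq L] (h2 : (2 : L) ≠ 0) {a b c : L} (ha : v a ≤ 1)
    (hb : v b ≤ 1) (hc : v c ≤ 1) (hr : ∀ x : L, x ^ 3 + a * x ^ 2 + b * x + c ≠ 0) (g : Γ)
    (P : Pt a b c) : P ∈ sub v h2 ha hb hc hr g ↔ Near v P ∧ v (tt P) ≤ g := Iff.rfl

/-- A point whose first coordinate is not integral is near the origin. -/
lemma near_of_lt {a b c x y : L} (ha : v a ≤ 1) (hb : v b ≤ 1) (hc : v c ≤ 1)
    (e : y ^ 2 = x ^ 3 + a * x ^ 2 + b * x + c) (hx : 1 < v x) :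
    v (x / y) < 1 ∧ v (1 / y) < 1 := by
  have hx0 : x ≠ 0 := by
    intro h
    rw [h, map_zero] at hx
    exact absurd hx (not_lt.2 zero_le)
  have h1 : v (1 / x) < 1 := by
    rw [map_div₀, map_one, one_div]
    exact inv_lt_one_of_one_lt₀ hx
  have h2 : v (1 + (a * (1 / x) + b * (1 / x) ^ 2 + c * (1 / x) ^ 3)) = 1 := by
    refine v.map_one_add_of_lt (v.map_add_lt (v.map_add_lt ?_ ?_) ?_)
    · exact mlt v ha h1
    · exact mlt v hb (pwt v h1 two_ne_zero)
    · exact mlt v hc (pwt v h1 three_ne_zero)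
  have h3 : y ^ 2 = x ^ 3 * (1 + (a * (1 / x) + b * (1 / x) ^ 2 + c * (1 / x) ^ 3)) := by
    rw [e]
    field_simp
    ring
  have h4 : v y ^ 2 = v x ^ 3 := by
    have h5 := congrArg v h3
    rw [map_mul, h2, mul_one, map_pow, map_pow] at h5
    exact h5
  have hy0 : y ≠ 0 := by
    intro h
    rw [h, map_zero, zero_pow two_ne_zero] at h4
    exact pow_ne_zero 3 ((Valuation.ne_zero_iff v).2 hx0) h4.symm
  have hvx : v x ≠ 0 := (Valuation.ne_zero_iff v).2 hx0
  have hvy : v y ≠ 0 := (Valuation.ne_zero_iff v).2 hy0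
  have h5 : v y ^ 2 = v x ^ 2 * v x := by rw [h4, pow_succ]
  constructor
  · rw [map_div₀]
    by_contra hcon
    rw [not_lt, le_div_iff₀ (zero_lt_iff.2 hvy), one_mul] at hcon
    have h6 : v y ^ 2 ≤ v x ^ 2 := pow_le_pow_left' hcon 2
    rw [h5] at h6
    have h7 : v x ^ 2 * v x ≤ v x ^ 2 * 1 := by rw [mul_one]; exact h6
    have h8 := le_of_mul_le_mul_left h7 (zero_lt_iff.2 (pow_ne_zero 2 hvx))
    exact absurd h8 (not_le.2 hx)
  · rw [map_div₀, map_one]
    by_contra hcon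
    rw [not_lt, le_div_iff₀ (zero_lt_iff.2 hvy), one_mul] at hcon
    have h6 : v y ^ 2 ≤ 1 := pow_le_one' hcon 2
    rw [h4] at h6
    exact absurd h6 (not_le.2 (one_lt_pow' hx three_ne_zero))

/-- The difference of two congruent integral points is near the origin. -/
lemma near_sub [DecidableEq L] (h2 : (2 : L) ≠ 0) {a b c : L} (ha : v a ≤ 1) (hb : v b ≤ 1)
    (hc : v c ≤ 1) (hr : ∀ x : L, x ^ 3 + a * x ^ 2 + b * x + c ≠ 0)
    {p : L} (hp : v p < 1) {x₁ y₁ x₂ y₂ : L} (h₁ : (crv a b c).toAffine.Nonsingular x₁ y₁)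
    (h₂ : (crv a b c).toAffine.Nonsingular x₂ y₂) (u₂ : v y₂ = 1) (k₁ : v x₁ ≤ 1)
    (k₂ : v x₂ ≤ 1) (hx : v (x₁ - x₂) ≤ v (2 * p)) (hy : v (y₁ - y₂) ≤ v (2 * p)) :
    Near v ((WeierstrassCurve.Affine.Point.some x₁ y₁ h₁ : Pt a b c) -
      WeierstrassCurve.Affine.Point.some x₂ y₂ h₂) := by
  have hv2 : v (2 : L) ≠ 0 := (Valuation.ne_zero_iff v).2 h2
  have hlt : v (2 * p) < v 2 := by
    rw [map_mul]
    calc v 2 * v p < v 2 * 1 := by
          exact mul_lt_mul_of_pos_left hp (zero_lt_iff.2 hv2)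
      _ = v 2 := mul_one _
  have hsum : v (y₁ + y₂) = v 2 := by
    have e : y₁ + y₂ = (y₁ - y₂) + 2 * y₂ := by ring
    have h3 : v (2 * y₂) = v 2 := by rw [map_mul, u₂, mul_one]
    rw [e, v.map_add_eq_of_lt_right (by rw [h3]; exact lt_of_le_of_lt hy hlt), h3]
  have hneg : (crv a b c).toAffine.Nonsingular x₂ (-y₂) := by
    have := (WeierstrassCurve.Affine.nonsingular_neg (W' := (crv a b c).toAffine) x₂ y₂).2 h₂
    rwa [neg_y] at this
  have hsn : -(WeierstrassCurve.Affine.Point.some x₂ y₂ h₂ : Pt a b c) =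
      WeierstrassCurve.Affine.Point.some x₂ (-y₂) hneg := by
    rw [WeierstrassCurve.Affine.Point.neg_some]
    rw [WeierstrassCurve.Affine.Point.some.injEq]
    exact ⟨rfl, neg_y⟩
  rw [sub_eq_add_neg, hsn]
  by_cases hxx : x₁ = x₂
  · have hyy : y₁ = y₂ := by
      have e₁ := eqn h₁
      have e₂ := eqn h₂
      rw [hxx] at e₁
      have h3 : (y₁ - y₂) * (y₁ + y₂) = 0 := by linear_combination e₁ - e₂
      rcases mul_eq_zero.1 h3 with h4 | h4
      · exact sub_eq_zero.1 h4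
      · rw [h4, map_zero] at hsum
        exact absurd hsum.symm hv2
    have h0 : (WeierstrassCurve.Affine.Point.some x₁ y₁ h₁ +
        WeierstrassCurve.Affine.Point.some x₂ (-y₂) hneg : Pt a b c) = 0 := by
      refine WeierstrassCurve.Affine.Point.add_of_Y_eq hxx ?_
      rw [neg_y, neg_neg]
      exact hyy
    rw [h0]
    exact near_zero v
  · obtain ⟨l, m, X, Y, h', hs, hY, hy₁, hy₂, hla, -, -, hl⟩ :=
      add_data h2 hr h₁ hneg (fun h => hxx h.1)
    have hl' : l * (x₁ - x₂) = y₁ + y₂ := by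
      rcases hl with ⟨-, h5⟩ | ⟨h5, -⟩
      · rw [h5]; ring
      · exact absurd h5 hxx
    have hX : 1 < v X := by
      have h3 : 1 < v l := by
        have h4 := congrArg v hl'
        rw [map_mul, hsum] at h4
        by_contra hcon
        rw [not_lt] at hcon
        have h5 : v l * v (x₁ - x₂) ≤ v (2 * p) := by
          calc v l * v (x₁ - x₂) ≤ 1 * v (2 * p) := mul_le_mul' hcon hx
            _ = v (2 * p) := one_mul _
        rw [h4] at h5
        exact absurd h5 (not_le.2 hlt)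
      have h4 : X = l ^ 2 - (a + x₁ + x₂) := by
        rw [hla]; ring
      have h5 : 1 < v (l ^ 2) := by
        rw [map_pow]
        exact one_lt_pow' h3 two_ne_zero
      rw [h4, v.map_sub_eq_of_lt_left (lt_of_le_of_lt ?_ h5)]
      · exact h5
      · exact v.map_add_le (v.map_add_le ha k₁) k₂
    rw [hs]
    exact near_of_lt ha hb hc (eqn h') hX

end Pool.PNF.EP
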