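import Pool.Agent.H53.PNF.D
import Pool.Agent.H8.PNF.EQ

/-!
# PNF, row LSC: at least `q^e` classes are classes of points
-/

set_option autoImplicit false

namespace Pool.PNF.LSC8

open Polynomial Pool.HYP Pool.TOW Pool.AVS Pool.T1 Pool.NF Pool.PRK Pool.PNF.EP IsLocalRing

variable {L : Type} [Field L] {O : ValuationSubring L} {π : L} {e : ℕ}

theorem pi_inv (h : UD.LocW L O π) : π⁻¹ ∉ O := by
  rw [h.unif π h.pi_mem h.pi_ne, div_self h.pi_ne]
  exact one_mem O

/-- the uniformizer as an element of the ring -/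
def pp (h : UD.LocW L O π) : O := ⟨π, h.pi_mem⟩

theorem nu (h : UD.LocW L O π) (x : O) (hx : ¬ IsUnit x) : (x : L) / π ∈ O := by
  by_cases hx0 : (x : L) = 0
  · rw [hx0, zero_div]; exact zero_mem O
  · rw [← h.unif x x.2 hx0]
    intro hc
    apply hx
    refine IsUnit.of_mul_eq_one (⟨(x : L)⁻¹, hc⟩ : O) ?_
    apply Subtype.ext
    exact mul_inv_cancel₀ hx0

theorem irr (h : UD.LocW L O π) : Irreducible (pp h) := by
  constructor
  · rintro ⟨u, hu⟩
    apply pi_inv h
    have h1 : (u : O) * (↑u⁻¹ : O) = 1 := by simp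
    have h2 : ((u : O) : L) * ((↑u⁻¹ : O) : L) = 1 := by exact_mod_cast congrArg Subtype.val h1
    rw [hu] at h2
    have h3 : ((↑u⁻¹ : O) : L) = π⁻¹ := by
      exact eq_inv_of_mul_eq_one_right h2
    rw [← h3]; exact (↑u⁻¹ : O).2
  · intro x y hxy
    by_contra hc
    push Not at hc
    have hx := nu h x hc.1
    have hy := nu h y hc.2
    apply pi_inv h
    have h1 : (x : L) * y = π := (congrArg Subtype.val hxy).symm
    have h2 : (x : L) / π * ((y : L) / π) = π⁻¹ := by
      rw [div_mul_div_comm, h1]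
      have := h.pi_ne
      field_simp
    rw [← h2]; exact mul_mem hx hy

theorem exists_pow (h : UD.LocW L O π) {x : O} (hx : x ≠ 0) :
    ∃ n : ℕ, Associated (pp h ^ n) x := by
  have hx0 : (x : L) ≠ 0 := fun hc => hx (Subtype.ext hc)
  have hpi := h.pi_ne
  obtain ⟨n, h1, h2⟩ := h.arch x hx0
  have hn : 0 ≤ n := by
    by_contra hc
    push Not at hc
    obtain ⟨m, hm⟩ : ∃ m : ℕ, n = -(m + 1 : ℤ) := ⟨(-n - 1).toNat, by omega⟩
    apply pi_inv h
    have h3 : ((x : L) / π ^ n)⁻¹ * (x * π ^ m) = π⁻¹ := by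
      rw [hm, zpow_neg, zpow_add₀ hpi, zpow_natCast, zpow_one]
      field_simp
    rw [← h3]
    exact mul_mem h2 (mul_mem x.2 (pow_mem h.pi_mem m))
  obtain ⟨m, rfl⟩ := Int.eq_ofNat_of_zero_le hn
  refine ⟨m, ⟨⟨⟨_, h1⟩, ⟨_, h2⟩, Subtype.ext (mul_inv_cancel₀ ?_),
    Subtype.ext (inv_mul_cancel₀ ?_)⟩, ?_⟩⟩
  · exact div_ne_zero hx0 (zpow_ne_zero _ hpi)
  · exact div_ne_zero hx0 (zpow_ne_zero _ hpi)
  · apply Subtype.ext
    show π ^ m * ((x : L) / π ^ (m : ℤ)) = x
    rw [zpow_natCast]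
    field_simp

theorem dvr (h : UD.LocW L O π) : IsDiscreteValuationRing O :=
  IsDiscreteValuationRing.ofHasUnitMulPowIrreducibleFactorization
    ⟨pp h, irr h, fun {_} hx => exists_pow h hx⟩

theorem v_pi (h : UD.LocW L O π) : O.valuation π < 1 := by
  rw [← O.mem_nonunits_iff, O.mem_nonunits_iff_or]
  exact Or.inr (pi_inv h)

theorem v_le_pi (h : UD.LocW L O π) {z : L} (hz : O.valuation z < 1) :
    O.valuation z ≤ O.valuation π := by
  by_cases hz0 : z = 0
  · rw [hz0, map_zero]; exact zero_le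
  · have hzO : z ∈ O := (O.valuation_le_one_iff z).1 hz.le
    have h1 : z⁻¹ ∉ O := by
      rcases O.mem_nonunits_iff_or.1 (O.mem_nonunits_iff.2 hz) with h2 | h2
      · exact absurd h2 hz0
      · exact h2
    have h2 := (h.unif z hzO hz0).1 h1
    have h3 := (O.valuation_le_one_iff _).2 h2
    rw [map_div₀, div_le_one₀ (zero_lt_iff.2 ((Valuation.ne_zero_iff _).2 h.pi_ne))] at h3
    exact h3

theorem v_two (h : Dyd L O π e) : O.valuation (2 : L) = O.valuation π ^ e := by
  have hp : O.valuation π ^ e ≠ 0 := pow_ne_zero _ ((Valuation.ne_zero_iff _).2 h.loc.pi_ne)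
  have h1 := (O.valuation_le_one_iff _).2 h.two.1
  have h2 := (O.valuation_le_one_iff _).2 h.two.2
  rw [map_div₀, map_pow, div_le_one₀ (zero_lt_iff.2 hp)] at h1
  rw [map_inv₀, map_div₀, map_pow, inv_div, div_le_one₀ (zero_lt_iff.2
    ((Valuation.ne_zero_iff _).2 h.ne))] at h2
  exact le_antisymm h1 h2

theorem max_eq (h : UD.LocW L O π) : maximalIdeal O = Ideal.span {pp h} := by
  have := dvr h
  exact (irr h).maximalIdeal_eq

theorem v_pow_of_mem (h : UD.LocW L O π) {x : O} {n : ℕ} (hx : x ∈ maximalIdeal O ^ n) :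
    O.valuation (x : L) ≤ O.valuation π ^ n := by
  rw [max_eq h, Ideal.span_singleton_pow, Ideal.mem_span_singleton] at hx
  obtain ⟨y, rfl⟩ := hx
  have e1 : ((pp h ^ n * y : O) : L) = π ^ n * (y : L) := rfl
  rw [e1, map_mul, map_pow]
  have h1 : O.valuation (y : L) ≤ 1 := O.valuation_le_one y
  calc O.valuation π ^ n * O.valuation (y : L) ≤ O.valuation π ^ n * 1 := mul_le_mul' le_rfl h1
    _ = _ := mul_one _

theorem mem_of_v_pow (h : UD.LocW L O π) {x : O} {n : ℕ}
    (hx : O.valuation (x : L) ≤ O.valuation π ^ n) : x ∈ maximalIdeal O ^ n := by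
  rw [max_eq h, Ideal.span_singleton_pow, Ideal.mem_span_singleton]
  have hp : O.valuation π ^ n ≠ 0 := pow_ne_zero _ ((Valuation.ne_zero_iff _).2 h.pi_ne)
  have h1 : (x : L) / π ^ n ∈ O := by
    rw [← O.valuation_le_one_iff, map_div₀, map_pow, div_le_one₀ (zero_lt_iff.2 hp)]
    exact hx
  refine ⟨⟨_, h1⟩, Subtype.ext ?_⟩
  show (x : L) = π ^ n * ((x : L) / π ^ n)
  have := h.pi_ne
  field_simp

/-- Representatives modulo `π^n`. -/
theorem reps (h : UD.LocW L O π) [Finite (ResidueField O)] (n : ℕ) :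
    Finite (O ⧸ maximalIdeal O ^ n) ∧
    ∃ r : Fin (qq O ^ n) → O, ∀ i j, r i - r j ∈ maximalIdeal O ^ n → i = j := by
  have hd := dvr h
  have hF : Finite (O ⧸ maximalIdeal O) := inferInstanceAs (Finite (ResidueField O))
  have hF2 : Finite (O ⧸ maximalIdeal O ^ n) :=
    Ideal.finite_quotient_pow (IsNoetherian.noetherian (maximalIdeal O)) n
  refine ⟨hF2, ?_⟩
  have hc : Nat.card (O ⧸ maximalIdeal O ^ n) = qq O ^ n := by
    have hne : maximalIdeal O ≠ ⊥ := IsDiscreteValuationRing.not_a_field O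
    have h1 := cardQuot_pow_of_prime (S := O) (P := maximalIdeal O) hne (i := n)
    rw [Submodule.cardQuot_apply, Submodule.cardQuot_apply] at h1
    exact h1
  obtain ⟨E⟩ : Nonempty (Fin (qq O ^ n) ≃ (O ⧸ maximalIdeal O ^ n)) := by
    rw [← hc]
    exact ⟨(Finite.equivFin _).symm⟩
  choose r hr using fun i => Ideal.Quotient.mk_surjective (E i)
  refine ⟨r, fun i j hij => ?_⟩
  have h1 : Ideal.Quotient.mk (maximalIdeal O ^ n) (r i) =
      Ideal.Quotient.mk (maximalIdeal O ^ n) (r j) := Ideal.Quotient.eq.2 hij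
  rw [hr, hr] at h1
  exact E.injective h1

/-- The coefficients. -/
theorem cubic_form {f₀ : O[X]} (h : Ir3 O f₀) :
    f₀ = X ^ 3 + C (f₀.coeff 2) * X ^ 2 + C (f₀.coeff 1) * X + C (f₀.coeff 0) := by
  have h3 : f₀.coeff 3 = 1 := by
    have := h.1.coeff_natDegree
    rwa [h.2.1] at this
  ext n
  simp only [coeff_add, coeff_C_mul, coeff_X_pow, coeff_X, coeff_C]
  match n with
  | 0 => simp
  | 1 => simp
  | 2 => simp
  | 3 => simp [h3]
  | n + 4 =>
    have : f₀.coeff (n + 4) = 0 := coeff_eq_zero_of_natDegree_lt (by rw [h.2.1]; omega)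
    simp [this]

theorem oL_form {f₀ : O[X]} (h : Ir3 O f₀) :
    oL O f₀ = cu ((f₀.coeff 2 : O) : L) ((f₀.coeff 1 : O) : L) ((f₀.coeff 0 : O) : L) := by
  have h1 := congrArg (oL O) (cubic_form h)
  rw [h1]
  simp only [oL, cu, Polynomial.map_add, Polynomial.map_mul, Polynomial.map_pow,
    Polynomial.map_X, Polynomial.map_C]
  rfl

/-- The values of `f₀` are units. -/
theorem v_eval {f₀ : O[X]} (h : Ir3 O f₀) (x : O) : O.valuation ((f₀.eval x : O) : L) = 1 := by
  rw [← O.valuation_eq_one_iff]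
  by_contra hc
  have h1 : residue O (f₀.eval x) = 0 := by
    rw [residue_eq_zero_iff, mem_maximalIdeal, mem_nonunits_iff]
    exact hc
  have h2 : (rd O f₀).eval (residue O x) = 0 := by
    rw [rd, eval_map, eval₂_at_apply]
    exact h1
  have h3 := degree_eq_one_of_irreducible_of_root h.2.2 h2
  have h4 : (rd O f₀).natDegree = 3 := by
    rw [rd, h.1.natDegree_map, h.2.1]
  have h5 : (rd O f₀).natDegree = 1 := natDegree_eq_of_degree_eq_some h3
  rw [h4] at h5
  exact absurd h5 (by norm_num)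

/-- The points near the origin have finite index. -/
theorem fie [DecidableEq L] (hD : Dyd L O π e) {f₀ : O[X]} (hf : Ir3 O f₀)
    (hr : ∀ x : L, x ^ 3 + (f₀.coeff 2 : O) * x ^ 2 + (f₀.coeff 1 : O) * x +
      (f₀.coeff 0 : O) ≠ (0 : L)) :
    (sub O.valuation hD.ne (O.valuation_le_one (f₀.coeff 2)) (O.valuation_le_one (f₀.coeff 1))
      (O.valuation_le_one (f₀.coeff 0)) hr 1).FiniteIndex := by
  classical
  have := hD.fin
  set ha := O.valuation_le_one (f₀.coeff 2)
  set hb := O.valuation_le_one (f₀.coeff 1)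
  set hc := O.valuation_le_one (f₀.coeff 0)
  set a : L := ((f₀.coeff 2 : O) : L)
  set b : L := ((f₀.coeff 1 : O) : L)
  set c : L := ((f₀.coeff 0 : O) : L)
  set H := sub O.valuation hD.ne ha hb hc hr 1 with hH
  have hQ := (reps hD.loc (e + 1)).1
  -- integral points have unit second coordinate
  have hint : ∀ x y : L, y ^ 2 = x ^ 3 + a * x ^ 2 + b * x + c → x ∈ O →
      O.valuation y = 1 := by
    intro x y hxy hx
    have h1 : ((f₀.eval (⟨x, hx⟩ : O) : O) : L) = x ^ 3 + a * x ^ 2 + b * x + c := by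
      conv_lhs => rw [cubic_form hf]
      simp only [eval_add, eval_mul, eval_pow, eval_X, eval_C]
      rfl
    have h2 := v_eval hf (⟨x, hx⟩ : O)
    rw [h1, ← hxy, map_pow] at h2
    exact (pow_eq_one_iff.1 h2).resolve_right two_ne_zero
  set g : Pt a b c → Option ((O ⧸ maximalIdeal O ^ (e + 1)) × (O ⧸ maximalIdeal O ^ (e + 1))) :=
    fun P => match P with
      | .zero => none
      | .some x y _ =>
        if h : x ∈ O ∧ y ∈ O then
          some (Ideal.Quotient.mk _ (⟨x, h.1⟩ : O), Ideal.Quotient.mk _ (⟨y, h.2⟩ : O))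
        else none with hg
  have hnone : ∀ P : Pt a b c, g P = none → P ∈ H := by
    intro P hP
    cases P with
    | zero => exact H.zero_mem
    | some x y h =>
      have hxy := eqn h
      by_cases hx : x ∈ O
      · have hy : y ∈ O := by
          rw [← O.valuation_le_one_iff, hint x y hxy hx]
        have : g (WeierstrassCurve.Affine.Point.some x y h) =
          some (Ideal.Quotient.mk _ (⟨x, hx⟩ : O), Ideal.Quotient.mk _ (⟨y, hy⟩ : O)) := by
          simp only [hg]
          rw [dif_pos ⟨hx, hy⟩]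
        rw [this] at hP
        exact absurd hP (by simp)
      · have hx1 : 1 < O.valuation x := by
          rw [← not_le, O.valuation_le_one_iff]
          exact hx
        obtain ⟨k1, k2⟩ := near_of_lt ha hb hc hxy hx1
        exact ⟨⟨k1, k2⟩, k1.le⟩
  have hsome : ∀ (P : Pt a b c) (q), g P = some q → ∃ (x y : O)
      (h : (crv a b c).toAffine.Nonsingular (x : L) (y : L)),
      P = WeierstrassCurve.Affine.Point.some (x : L) (y : L) h ∧
      q = (Ideal.Quotient.mk _ x, Ideal.Quotient.mk _ y) := by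
    intro P q hP
    cases P with
    | zero => exact absurd hP (by simp [hg])
    | some x y h =>
      by_cases hh : x ∈ O ∧ y ∈ O
      · refine ⟨⟨x, hh.1⟩, ⟨y, hh.2⟩, h, rfl, ?_⟩
        simp only [hg] at hP
        rw [dif_pos hh] at hP
        exact (Option.some.inj hP).symm
      · simp only [hg] at hP
        rw [dif_neg hh] at hP
        exact absurd hP (by simp)
  have hkey : ∀ P Q : Pt a b c, g P = g Q → P - Q ∈ H := by
    intro P Q hPQ
    cases hgP : g P with
    | none =>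
      exact H.sub_mem (hnone P hgP) (hnone Q (by rw [← hPQ]; exact hgP))
    | some q =>
      obtain ⟨x, y, h, rfl, hq⟩ := hsome P q hgP
      obtain ⟨x', y', h', rfl, hq'⟩ := hsome Q q (by rw [← hPQ]; exact hgP)
      rw [hq, Prod.mk.injEq] at hq'
      have h2p : O.valuation ((2 : L) * π) = O.valuation π ^ (e + 1) := by
        rw [map_mul, v_two hD, pow_succ]
      have hx := v_pow_of_mem hD.loc (Ideal.Quotient.eq.1 hq'.1)
      have hy := v_pow_of_mem hD.loc (Ideal.Quotient.eq.1 hq'.2)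
      rw [← h2p] at hx hy
      have hn := near_sub hD.ne ha hb hc hr (v_pi hD.loc) h h' (hint _ _ (eqn h') x'.2)
        (O.valuation_le_one x) (O.valuation_le_one x') hx hy
      exact ⟨hn, hn.1.le⟩
  have hfin : Finite (Pt a b c ⧸ H) := by
    refine Finite.of_injective (fun q : Pt a b c ⧸ H => g q.out) ?_
    intro q q' hqq
    have h1 := hkey _ _ hqq.symm
    rw [← Quotient.out_eq q, ← Quotient.out_eq q']
    refine QuotientAddGroup.eq.2 ?_
    rw [neg_add_eq_sub]
    exact h1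
  exact AddSubgroup.finiteIndex_of_finite_quotient

/-- Affine points. -/
theorem nons (h2 : (2 : L) ≠ 0) {a b c x y : L} (e : y ^ 2 = x ^ 3 + a * x ^ 2 + b * x + c)
    (hy : y ≠ 0) : (crv a b c).toAffine.Nonsingular x y := by
  rw [WeierstrassCurve.Affine.nonsingular_iff]
  refine ⟨?_, Or.inr ?_⟩
  · rw [WeierstrassCurve.Affine.equation_iff]
    simp only [crv]
    linear_combination e
  · simp only [crv]
    intro h
    apply mul_ne_zero h2 hy
    linear_combination h

theorem no_root {a b c : L} (h : Irreducible (cu a b c)) (x : L) :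
    x ^ 3 + a * x ^ 2 + b * x + c ≠ 0 := by
  intro hx
  have hd : (cu a b c).natDegree = 3 := by
    rw [cu]
    compute_degree!
  have h1 := Polynomial.degree_eq_one_of_irreducible_of_root h (x := x) (by
    simp only [cu, IsRoot, eval_add, eval_mul, eval_pow, eval_X, eval_C]
    exact hx)
  have h2 : (cu a b c).natDegree = 1 := natDegree_eq_of_degree_eq_some h1
  rw [hd] at h2
  exact absurd h2 (by norm_num)

theorem inj_of_card {S : Type} (n : ℕ) (h : Finite S → n ≤ Nat.card S) :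
    ∃ j : Fin n → S, Function.Injective j := by
  rcases finite_or_infinite S with hf | hi
  · obtain ⟨E⟩ : Nonempty (Fin (Nat.card S) ≃ S) := ⟨(Finite.equivFin S).symm⟩
    exact ⟨fun i => E (Fin.castLE (h hf) i), fun i j hij =>
      Fin.castLE_injective (h hf) (E.injective hij)⟩
  · let E := Infinite.natEmbedding S
    exact ⟨fun i => E i, fun i j hij => Fin.ext (E.injective hij)⟩

end Pool.PNF.LSC8

namespace Pool.PNF

open Polynomial Pool.HYP Pool.TOW Pool.AVS Pool.T1 Pool.NF Pool.PRK Pool.PNF.EP IsLocalRing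
open LSC8

/-- LSC. -/
theorem lsc (ir3 : IR3Stmt) (tsu : TSUStmt) (kpi : KPIStmt) (knl : KNLStmt) (idx : IDXStmt) :
    LSCStmt := by
  intro L _ O π e hD f₀ hf
  classical
  have hfin := hD.fin
  have hirr := ir3 L O f₀ hf
  rw [oL_form hf] at hirr ⊢
  have hfie := fun hr => fie hD hf hr
  have hr' : ∀ x : L, x ^ 3 + (f₀.coeff 2 : O) * x ^ 2 + (f₀.coeff 1 : O) * x +
      (f₀.coeff 0 : O) ≠ (0 : L) := fun x => no_root hirr x
  have hfi := hfie hr'
  obtain ⟨-, r, hrr⟩ := reps hD.loc e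
  set ha := O.valuation_le_one (f₀.coeff 2)
  set hb := O.valuation_le_one (f₀.coeff 1)
  set hc := O.valuation_le_one (f₀.coeff 0)
  have haO : ((f₀.coeff 2 : O) : L) ∈ O := (f₀.coeff 2).2
  have hbO : ((f₀.coeff 1 : O) : L) ∈ O := (f₀.coeff 1).2
  have hcO : ((f₀.coeff 0 : O) : L) ∈ O := (f₀.coeff 0).2
  set a : L := ((f₀.coeff 2 : O) : L)
  set b : L := ((f₀.coeff 1 : O) : L)
  set c : L := ((f₀.coeff 0 : O) : L)
  set v := O.valuation with hv
  have hr : ∀ x : L, x ^ 3 + a * x ^ 2 + b * x + c ≠ 0 := hr'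
  set H := sub v hD.ne ha hb hc hr 1 with hH
  set H' := sub v hD.ne ha hb hc hr (v π ^ (e + 1)) with hH'
  have : Fact (Irreducible (cu a b c)) := ⟨hirr⟩
  obtain ⟨hno2, hkpi⟩ := kpi L hD.ne a b c hirr
  -- the classes
  have hne : ∀ P : Pt a b c, AdjoinRoot.mk (cu a b c) (cls P) ≠ 0 := by
    intro P h
    rw [AdjoinRoot.mk_eq_zero] at h
    have h1 := (knl L a b c hirr P).1
    exact hirr.not_isUnit (h1.symm.isUnit_of_dvd' dvd_rfl h)
  set φ : Pt a b c → ((AdjoinRoot (cu a b c))ˣ ⧸ SqG (cu a b c)) := fun P =>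
    QuotientGroup.mk (Units.mk0 _ (hne P)) with hφ
  have hφeq : ∀ P Q : Pt a b c, φ P = φ Q → ∃ w : AdjoinRoot (cu a b c),
      AdjoinRoot.mk (cu a b c) (cls Q) = AdjoinRoot.mk (cu a b c) (cls P) * w ^ 2 := by
    intro P Q h
    obtain ⟨u, hu⟩ := QuotientGroup.eq.1 h
    refine ⟨(u : AdjoinRoot (cu a b c)), ?_⟩
    have h1 := congrArg Units.val (eq_inv_mul_iff_mul_eq.1 hu)
    simp only [powMonoidHom_apply, Units.val_mul, Units.val_pow_eq_pow_val, Units.val_mk0] at h1
    exact h1.symm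
  -- doubling
  have hdbl : ∀ P ∈ H, P + P ∈ H' := by
    rintro P ⟨hP, -⟩
    obtain ⟨k1, k2⟩ := near_double hD.ne ha hb hc hr P hP
    refine ⟨k1, k2.trans ?_⟩
    rw [map_mul, v_two hD, pow_succ]
    exact mul_le_mul' le_rfl (v_le_pi hD.loc hP.1)
  -- the points with given parameter
  have hpt : ∀ z : L, v z ≤ v π → ∃ P : Pt a b c, P ∈ H ∧ tt P = z := by
    intro z hz
    by_cases hz0 : z = 0
    · exact ⟨0, H.zero_mem, hz0.symm⟩
    · have hzO : z / π ∈ O := by
        rw [← O.valuation_le_one_iff, map_div₀,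
          div_le_one₀ (zero_lt_iff.2 ((Valuation.ne_zero_iff _).2 hD.loc.pi_ne))]
        exact hz
      obtain ⟨x, y, h1, h3, h4⟩ := tsu L O π e hD a b c z haO hbO hcO hz0 hzO
      have hy := y_ne hr h1
      have hx1 : 1 < v x := by
        rw [← not_le, hv, O.valuation_le_one_iff]
        exact h3
      obtain ⟨k1, k2⟩ := near_of_lt ha hb hc h1 hx1
      exact ⟨WeierstrassCurve.Affine.Point.some x y (nons hD.ne h1 hy), ⟨⟨k1, k2⟩, k1.le⟩, h4⟩
  have hpr : ∀ i, v (π * (r i : O)) ≤ v π := by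
    intro i
    rw [map_mul]
    calc v π * v (r i : O) ≤ v π * 1 := mul_le_mul' le_rfl (O.valuation_le_one _)
      _ = v π := mul_one _
  choose p hpH hpt' using fun i => hpt _ (hpr i)
  have hsep : ∀ i j, p i - p j ∈ H' → i = j := by
    intro i j hij
    apply hrr
    apply mem_of_v_pow hD.loc
    have h1 := (near_add hD.ne ha hb hc hr (p j) (p i - p j) (hpH j).1 hij.1).2
    rw [add_sub_cancel, hpt', hpt'] at h1
    have h3 := h1.trans hij.2
    have e1 : π * (r i : O) - π * (r j : O) = π * ((r i - r j : O) : L) := by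
      rw [show ((r i - r j : O) : L) = (r i : L) - (r j : L) from rfl]
      ring
    rw [e1, map_mul, pow_succ'] at h3
    exact le_of_mul_le_mul_left h3 (zero_lt_iff.2 ((Valuation.ne_zero_iff _).2 hD.loc.pi_ne))
  -- the number of the classes
  obtain ⟨j, hj⟩ := inj_of_card (S := Set.range φ) (qq O ^ e) (by
    intro hS
    have h1 := idx (Pt a b c) H H' hfi hno2 hdbl (Fin (qq O ^ e)) p hpH hsep (Set.range φ)
      (fun P => ⟨φ P, P, rfl⟩) (fun P Q h => by
        obtain ⟨w, hw⟩ := hφeq P Q (Subtype.mk.inj h)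
        obtain ⟨s, hs⟩ := AdjoinRoot.mk_surjective
          (AdjoinRoot.mk (cu a b c) (cls P) * w)
        refine hkpi P Q s ?_
        rw [← AdjoinRoot.mk_eq_mk, map_mul, map_pow, hs, hw]
        ring)
    rwa [Nat.card_fin] at h1)
  choose q hq using fun i => (j i).2
  refine ⟨fun i => cls (q i), fun i => knl L a b c hirr (q i), ?_⟩
  rintro i i' ⟨s, hs, hd⟩
  apply hj
  apply Subtype.ext
  rw [← hq, ← hq]
  rw [← AdjoinRoot.mk_eq_mk, map_mul, map_pow] at hd
  have hs0 : AdjoinRoot.mk (cu a b c) s ≠ 0 := by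
    intro h
    rw [AdjoinRoot.mk_eq_zero] at h
    exact hirr.not_isUnit (hs.symm.isUnit_of_dvd' dvd_rfl h)
  refine (QuotientGroup.eq.2 ?_).symm
  refine ⟨Units.mk0 _ hs0, ?_⟩
  rw [eq_inv_mul_iff_mul_eq]
  apply Units.ext
  simp only [powMonoidHom_apply, Units.val_mul, Units.val_pow_eq_pow_val, Units.val_mk0]
  exact hd.symm

end Pool.PNF
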