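import Pool.Agent.H53.PNF.D
import Mathlib.RingTheory.AdicCompletion.RingHom

/-!
# PNF, row TRC: uniqueness of the completions
-/

set_option autoImplicit false

namespace Pool.PNF.TRC8

open Pool.TOW IsLocalRing

section Val

variable {L : Type} [Field L] {O : ValuationSubring L}

/-- Membership in the powers of the maximal ideal. -/
theorem mem_pow (π : O) (hπ : maximalIdeal O = Ideal.span {π}) (h0 : (π : L) ≠ 0) (n : ℕ) (z : O) :
    z ∈ maximalIdeal O ^ n ↔ O.valuation (z : L) ≤ O.valuation (π : L) ^ n := by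
  have hp : O.valuation (π : L) ^ n ≠ 0 := pow_ne_zero _ ((Valuation.ne_zero_iff _).2 h0)
  rw [hπ, Ideal.span_singleton_pow, Ideal.mem_span_singleton]
  constructor
  · rintro ⟨y, rfl⟩
    have e1 : ((π ^ n * y : O) : L) = (π : L) ^ n * (y : L) := rfl
    rw [e1, map_mul, map_pow]
    calc O.valuation (π : L) ^ n * O.valuation (y : L) ≤ O.valuation (π : L) ^ n * 1 :=
          mul_le_mul' le_rfl (O.valuation_le_one y)
      _ = _ := mul_one _
  · intro h
    have h1 : (z : L) / (π : L) ^ n ∈ O := by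
      rw [← O.valuation_le_one_iff, map_div₀, map_pow, div_le_one₀ (zero_lt_iff.2 hp)]
      exact h
    refine ⟨⟨_, h1⟩, Subtype.ext ?_⟩
    show (z : L) = (π : L) ^ n * ((z : L) / (π : L) ^ n)
    field_simp

end Val

variable {K L L' : Type} [Field K] [Field L] [Field L'] {O : ValuationSubring L}
  {O' : ValuationSubring L'} {ι : K →+* L} {ι' : K →+* L'}

theorem lt_iff (hA : ∀ x : K, ι x ∈ O ↔ ι' x ∈ O') (x : K) :
    O.valuation (ι x) < 1 ↔ O'.valuation (ι' x) < 1 := by
  by_cases hx : x = 0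
  · subst hx
    simp
  · have h1 : ∀ (y : K), y ≠ 0 → (O.valuation (ι y) < 1 ↔ ¬ ι y⁻¹ ∈ O) := by
      intro y hy
      rw [← O.valuation_le_one_iff, map_inv₀, map_inv₀, not_le,
        one_lt_inv₀ (zero_lt_iff.2 ((Valuation.ne_zero_iff _).2 ((map_ne_zero ι).2 hy)))]
    have h2 : ∀ (y : K), y ≠ 0 → (O'.valuation (ι' y) < 1 ↔ ¬ ι' y⁻¹ ∈ O') := by
      intro y hy
      rw [← O'.valuation_le_one_iff, map_inv₀, map_inv₀, not_le,
        one_lt_inv₀ (zero_lt_iff.2 ((Valuation.ne_zero_iff _).2 ((map_ne_zero ι').2 hy)))]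
    rw [h1 x hx, h2 x hx, hA]

theorem le_iff (hA : ∀ x : K, ι x ∈ O ↔ ι' x ∈ O') (x y : K) (hy : y ≠ 0) :
    O.valuation (ι x) ≤ O.valuation (ι y) ↔ O'.valuation (ι' x) ≤ O'.valuation (ι' y) := by
  have h1 : O.valuation (ι x) ≤ O.valuation (ι y) ↔ ι (x / y) ∈ O := by
    rw [← O.valuation_le_one_iff, map_div₀, map_div₀,
      div_le_one₀ (zero_lt_iff.2 ((Valuation.ne_zero_iff _).2 ((map_ne_zero ι).2 hy)))]
  have h2 : O'.valuation (ι' x) ≤ O'.valuation (ι' y) ↔ ι' (x / y) ∈ O' := by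
    rw [← O'.valuation_le_one_iff, map_div₀, map_div₀,
      div_le_one₀ (zero_lt_iff.2 ((Valuation.ne_zero_iff _).2 ((map_ne_zero ι').2 hy)))]
  rw [h1, h2, hA]

theorem v_lt (z : L) (hz : z ∈ O) (hz' : ¬ IsUnit (⟨z, hz⟩ : O)) : O.valuation z < 1 := by
  have h1 := (O.valuation_lt_one_iff (⟨z, hz⟩ : O)).1 ((mem_maximalIdeal _).2 hz')
  exact h1

/-- A uniformizer in `K`. -/
theorem exists_unif (h : Cpl K L O ι) : ∃ t : K, t ≠ 0 ∧ ∃ ht : ι t ∈ O,
    maximalIdeal O = Ideal.span {(⟨ι t, ht⟩ : O)} := by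
  have := h.dvr
  obtain ⟨π, hπ⟩ := IsDiscreteValuationRing.exists_irreducible O
  have hπ0 : (π : L) ≠ 0 := fun hc => hπ.ne_zero (Subtype.ext hc)
  obtain ⟨t, ht⟩ := h.dense (π : L) ((π : L) ^ 2) (pow_ne_zero 2 hπ0)
  have hv : O.valuation (π : L) < 1 := v_lt _ π.2 hπ.not_isUnit
  have hv0 : O.valuation (π : L) ≠ 0 := (Valuation.ne_zero_iff _).2 hπ0
  have h1 : O.valuation ((π : L) - ι t) < O.valuation (π : L) := by
    have h2 := (O.valuation_le_one_iff _).2 ht
    rw [map_div₀, map_pow, div_le_one₀ (zero_lt_iff.2 (pow_ne_zero 2 hv0))] at h2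
    refine lt_of_le_of_lt h2 ?_
    rw [pow_two]
    calc O.valuation (π : L) * O.valuation (π : L) < O.valuation (π : L) * 1 :=
          mul_lt_mul_of_pos_left hv (zero_lt_iff.2 hv0)
      _ = _ := mul_one _
  have h3 : O.valuation (ι t) = O.valuation (π : L) := by
    have e : ι t = (π : L) - ((π : L) - ι t) := by ring
    rw [e]
    exact Valuation.map_sub_eq_of_lt_left _ h1
  have ht0 : t ≠ 0 := by
    rintro rfl
    rw [map_zero, map_zero] at h3
    exact hv0 h3.symm
  have htO : ι t ∈ O := by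
    rw [← O.valuation_le_one_iff, h3]
    exact hv.le
  refine ⟨t, ht0, htO, ?_⟩
  rw [hπ.maximalIdeal_eq, Ideal.span_singleton_eq_span_singleton]
  have h4 : (π : L) / ι t ∈ O := by
    rw [← O.valuation_le_one_iff, map_div₀, h3, div_self hv0]
  have h5 : ι t / (π : L) ∈ O := by
    rw [← O.valuation_le_one_iff, map_div₀, h3, div_self hv0]
  have hit : ι t ≠ 0 := (map_ne_zero ι).2 ht0
  refine ⟨⟨⟨_, h5⟩, ⟨_, h4⟩, Subtype.ext ?_, Subtype.ext ?_⟩, Subtype.ext ?_⟩
  · show ι t / (π : L) * ((π : L) / ι t) = 1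
    field_simp
  · show (π : L) / ι t * (ι t / (π : L)) = 1
    field_simp
  · show (π : L) * (ι t / (π : L)) = ι t
    field_simp

/-- It is a uniformizer of the other completion, too. -/
theorem unif' (h' : Cpl K L' O' ι') (hA : ∀ x : K, ι x ∈ O ↔ ι' x ∈ O') (t : K)
    (ht0 : t ≠ 0) (ht : ι t ∈ O) (hm : maximalIdeal O = Ideal.span {(⟨ι t, ht⟩ : O)}) :
    maximalIdeal O' = Ideal.span {(⟨ι' t, (hA t).1 ht⟩ : O')} := by
  have hit : ι' t ≠ 0 := (map_ne_zero ι').2 ht0
  have htv : O.valuation (ι t) < 1 := by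
    refine v_lt _ ht ?_
    rw [← mem_nonunits_iff, ← mem_maximalIdeal, hm]
    exact Ideal.mem_span_singleton_self _
  have htv' := (lt_iff hA t).1 htv
  apply le_antisymm
  · intro z hz
    rw [Ideal.mem_span_singleton]
    obtain ⟨y, hy⟩ := h'.dense (z : L') (ι' t) hit
    have hzv : O'.valuation (z : L') < 1 := (O'.valuation_lt_one_iff z).1 hz
    have h1 : O'.valuation ((z : L') - ι' y) ≤ O'.valuation (ι' t) := by
      have h2 := (O'.valuation_le_one_iff _).2 hy
      rwa [map_div₀, div_le_one₀ (zero_lt_iff.2 ((Valuation.ne_zero_iff _).2 hit))] at h2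
    have h2 : O'.valuation (ι' y) < 1 := by
      have e : ι' y = (z : L') - ((z : L') - ι' y) := by ring
      rw [e]
      exact Valuation.map_sub_lt _ hzv (lt_of_le_of_lt h1 htv')
    have h3 := (lt_iff hA y).2 h2
    have h4 : O.valuation (ι y) ≤ O.valuation (ι t) := by
      have hyO : ι y ∈ O := (O.valuation_le_one_iff _).1 h3.le
      have h5 : (⟨ι y, hyO⟩ : O) ∈ maximalIdeal O := (O.valuation_lt_one_iff _).2 h3
      rw [hm, Ideal.mem_span_singleton] at h5
      obtain ⟨u, hu⟩ := h5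
      have h6 : ι y = ι t * (u : L) := congrArg Subtype.val hu
      rw [h6, map_mul]
      calc O.valuation (ι t) * O.valuation (u : L) ≤ O.valuation (ι t) * 1 :=
            mul_le_mul' le_rfl (O.valuation_le_one u)
        _ = _ := mul_one _
    have h5 := (le_iff hA y t ht0).1 h4
    have h6 : O'.valuation (z : L') ≤ O'.valuation (ι' t) := by
      have e : (z : L') = ((z : L') - ι' y) + ι' y := by ring
      rw [e]
      exact Valuation.map_add_le _ h1 h5
    have h7 : (z : L') / ι' t ∈ O' := by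
      rw [← O'.valuation_le_one_iff, map_div₀,
        div_le_one₀ (zero_lt_iff.2 ((Valuation.ne_zero_iff _).2 hit))]
      exact h6
    refine ⟨⟨_, h7⟩, Subtype.ext ?_⟩
    show (z : L') = ι' t * ((z : L') / ι' t)
    field_simp
  · rw [Ideal.span_singleton_le_iff_mem, O'.valuation_lt_one_iff]
    exact htv'

/-- The embedding of `K` in one completion extends to the other one. -/
theorem extend (h : Cpl K L O ι) (h' : Cpl K L' O' ι') (hA : ∀ x : K, ι x ∈ O ↔ ι' x ∈ O') :
    ∃ e : L →+* L', ∀ x : K, e (ι x) = ι' x := by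
  have hdvr := h.dvr
  have hdvr' := h'.dvr
  have hcpl' := h'.complete
  obtain ⟨t, ht0, ht, hm⟩ := exists_unif h
  have hm' := unif' h' hA t ht0 ht hm
  have hit : ι t ≠ 0 := (map_ne_zero ι).2 ht0
  have hit' : ι' t ≠ 0 := (map_ne_zero ι').2 ht0
  set A : ValuationSubring K := O.comap ι with hAdef
  have hmA : ∀ x : A, ι (x : K) ∈ O := fun x => x.2
  let j : A →+* O := (ι.comp A.subtype).codRestrict O (fun x => hmA x)
  let j' : A →+* O' := (ι'.comp A.subtype).codRestrict O' (fun x => (hA x).1 (hmA x))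
  have hj : ∀ a : A, ((j a : O) : L) = ι (a : K) := fun a => rfl
  have hj' : ∀ a : A, ((j' a : O') : L') = ι' (a : K) := fun a => rfl
  -- the powers of the maximal ideals
  have hpow : ∀ (n : ℕ) (a : A), j a ∈ maximalIdeal O ^ n ↔ j' a ∈ maximalIdeal O' ^ n := by
    intro n a
    rw [mem_pow _ hm hit, mem_pow _ hm' hit', hj, hj']
    have h1 := le_iff hA (a : K) (t ^ n) (pow_ne_zero n ht0)
    rw [map_pow, map_pow, map_pow, map_pow] at h1
    exact h1
  let g : (n : ℕ) → A →+* O ⧸ maximalIdeal O ^ n := fun n => (Ideal.Quotient.mk _).comp j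
  let k : (n : ℕ) → A →+* O' ⧸ maximalIdeal O' ^ n := fun n => (Ideal.Quotient.mk _).comp j'
  have happ : ∀ (n : ℕ) (z : O), ∃ a : A, z - j a ∈ maximalIdeal O ^ n := by
    intro n z
    obtain ⟨x, hx⟩ := h.dense (z : L) (ι t ^ n) (pow_ne_zero n hit)
    have h1 : O.valuation ((z : L) - ι x) ≤ O.valuation (ι t) ^ n := by
      have h2 := (O.valuation_le_one_iff _).2 hx
      rwa [map_div₀, map_pow, div_le_one₀ (zero_lt_iff.2 (pow_ne_zero n
        ((Valuation.ne_zero_iff _).2 hit)))] at h2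
    have h3 : ι x ∈ O := by
      have h4 : (z : L) - ι x ∈ O := by
        rw [← O.valuation_le_one_iff]
        exact h1.trans (pow_le_one' ((O.valuation_le_one_iff _).2 ht) n)
      have e : ι x = (z : L) - ((z : L) - ι x) := by ring
      rw [e]
      exact sub_mem z.2 h4
    refine ⟨⟨x, h3⟩, ?_⟩
    rw [mem_pow _ hm hit]
    exact h1
  have hsurj : ∀ n, Function.Surjective (g n) := by
    intro n q
    obtain ⟨z, rfl⟩ := Ideal.Quotient.mk_surjective q
    obtain ⟨a, ha⟩ := happ n z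
    exact ⟨a, (Ideal.Quotient.eq.2 ha).symm⟩
  have hker : ∀ n, RingHom.ker (g n) ≤ RingHom.ker (k n) := by
    intro n a ha
    rw [RingHom.mem_ker] at ha ⊢
    have h1 : j a ∈ maximalIdeal O ^ n := Ideal.Quotient.eq_zero_iff_mem.1 ha
    exact Ideal.Quotient.eq_zero_iff_mem.2 ((hpow n a).1 h1)
  let φ : (n : ℕ) → O →+* O' ⧸ maximalIdeal O' ^ n := fun n =>
    ((g n).liftOfSurjective (hsurj n) ⟨k n, hker n⟩).comp (Ideal.Quotient.mk _)
  have hφ : ∀ (n : ℕ) (z : O) (a : A), z - j a ∈ maximalIdeal O ^ n → φ n z = k n a := by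
    intro n z a ha
    have h1 : Ideal.Quotient.mk (maximalIdeal O ^ n) z = g n a := Ideal.Quotient.eq.2 ha
    show ((g n).liftOfSurjective (hsurj n) ⟨k n, hker n⟩) (Ideal.Quotient.mk _ z) = k n a
    rw [h1]
    exact RingHom.liftOfSurjective_comp_apply _ _ _ _
  have hcomp : ∀ {m n : ℕ} (hle : m ≤ n),
      (Ideal.Quotient.factorPow (maximalIdeal O') hle).comp (φ n) = φ m := by
    intro m n hle
    ext z
    obtain ⟨a, ha⟩ := happ n z
    have ha' := Ideal.pow_le_pow_right hle ha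
    rw [RingHom.comp_apply, hφ n z a ha, hφ m z a ha']
    rfl
  let ψ : O →+* O' := IsAdicComplete.liftRingHom (maximalIdeal O') φ hcomp
  have hψ : ∀ a : A, ψ (j a) = j' a := by
    intro a
    have h1 : ∀ n, ψ (j a) - j' a ∈ maximalIdeal O' ^ n := by
      intro n
      have h2 : Ideal.Quotient.mk (maximalIdeal O' ^ n) (ψ (j a)) = φ n (j a) :=
        IsAdicComplete.mk_liftRingHom _ _ _ _ _
      rw [hφ n (j a) a (by rw [sub_self]; exact zero_mem _)] at h2
      exact Ideal.Quotient.eq.1 h2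
    have h3 : ψ (j a) - j' a ∈ ⨅ n : ℕ, maximalIdeal O' ^ n := by
      rw [Ideal.mem_iInf]
      exact h1
    rw [Ideal.iInf_pow_eq_bot_of_isLocalRing _ (Ideal.IsPrime.ne_top inferInstance)] at h3
    exact sub_eq_zero.1 h3
  have hinj : Function.Injective ((algebraMap O' L').comp ψ) := by
    rw [injective_iff_map_eq_zero]
    intro z hz
    by_contra hz0
    have hirr : Irreducible (⟨ι t, ht⟩ : O) :=
      IsDiscreteValuationRing.irreducible_of_span_eq_maximalIdeal _
        (fun hc => hit (congrArg Subtype.val hc)) hm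
    obtain ⟨n, u, hu⟩ := IsDiscreteValuationRing.eq_unit_mul_pow_irreducible hz0 hirr
    have h1 : ψ z = 0 := by
      have h2 : ((ψ z : O') : L') = 0 := hz
      exact Subtype.ext h2
    rw [hu, map_mul, map_pow] at h1
    have h2 : ψ (⟨ι t, ht⟩ : O) = j' ⟨t, ht⟩ := hψ ⟨t, ht⟩
    rw [h2] at h1
    rcases mul_eq_zero.1 h1 with h3 | h3
    · exact (u.isUnit.map ψ).ne_zero h3
    · have h4 := eq_zero_of_pow_eq_zero h3
      exact hit' (congrArg Subtype.val h4)
  refine ⟨IsFractionRing.lift (A := O) (K := L) hinj, ?_⟩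
  have hin : ∀ x : K, ι x ∈ O → IsFractionRing.lift (A := O) (K := L) hinj (ι x) = ι' x := by
    intro x hx
    have h1 := IsFractionRing.lift_algebraMap (A := O) (K := L) hinj (j ⟨x, hx⟩)
    have h2 : algebraMap O L (j ⟨x, hx⟩) = ι x := rfl
    rw [h2] at h1
    rw [h1, RingHom.comp_apply, hψ]
    rfl
  intro x
  by_cases hx : ι x ∈ O
  · exact hin x hx
  · have h1 : ι x⁻¹ ∈ O := by
      rw [map_inv₀]
      exact (O.mem_or_inv_mem (ι x)).resolve_left hx
    have h2 := hin x⁻¹ h1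
    rw [map_inv₀, map_inv₀, map_inv₀] at h2
    exact inv_injective h2

end Pool.PNF.TRC8

namespace Pool.PNF

open Polynomial Pool.HYP Pool.TOW Pool.NF

/-- Transport of `LocSol`. -/
theorem locSol_map {L L' : Type} [Field L] [Field L'] (e : L →+* L') (f p : L[X])
    (h : LocSol f p) : LocSol (f.map e) (p.map e) := by
  obtain ⟨u, w, s, hu, hc, hd, hs⟩ := h
  refine ⟨u.map e, w.map e, s.map e, hu.map e, ?_, ?_, ?_⟩
  · obtain ⟨a, b, hab⟩ := hc
    exact ⟨a.map e, b.map e, by
      rw [← Polynomial.map_mul, ← Polynomial.map_mul, ← Polynomial.map_add, hab,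
        Polynomial.map_one]⟩
  · have := Polynomial.map_dvd e hd
    rwa [Polynomial.map_sub, Polynomial.map_pow] at this
  · have := Polynomial.map_dvd e hs
    rw [Polynomial.map_sub, Polynomial.map_mul, Polynomial.map_mul, Polynomial.map_pow,
      Polynomial.map_pow, Polynomial.map_neg, Polynomial.map_one] at this
    rwa [natDegree_map]

/-- TRC. -/
theorem trc : TRCStmt := by
  intro K _ _ L _ O ι L' _ O' ι' h _ h' hA f α _ _ _ _ hs
  obtain ⟨e, he⟩ := TRC8.extend h h' hA
  have h1 := locSol_map e _ _ hs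
  have h2 : e.comp ι = ι' := RingHom.ext he
  have h3 : ∀ r : K[X], (r.map ι).map e = r.map ι' := fun r => by rw [Polynomial.map_map, h2]
  rw [h3, h3] at h1
  exact h1

end Pool.PNF
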