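import Mathlib.AlgebraicGeometry.EllipticCurve.Affine.Point
import Mathlib.RingTheory.Valuation.Basic
import Mathlib.Tactic

/-!
# PNF, dyadic part: the points near the origin of a cubic curve over a valued field

`t = x / y` and `w = 1 / y`; `t (P + Q) - t P` is a multiple of `t Q`, `t (2 P)` is a multiple of
`2 t P`.
-/

set_option autoImplicit false

namespace Pool.PNF.EP

open WeierstrassCurve.Affine

variable {L : Type*} [Field L]

/-- The curve `y² = x³ + a x² + b x + c`. -/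
abbrev crv (a b c : L) : WeierstrassCurve L := ⟨0, a, 0, b, c⟩

/-- The points. -/
abbrev Pt (a b c : L) : Type _ := (crv a b c).toAffine.Point

lemma eqn {a b c x y : L} (h : (crv a b c).toAffine.Nonsingular x y) :
    y ^ 2 = x ^ 3 + a * x ^ 2 + b * x + c := by
  have h1 := h.1
  rw [WeierstrassCurve.Affine.equation_iff] at h1
  simp only [crv] at h1
  linear_combination h1

/-- `x / y`. -/
def tt {a b c : L} : Pt a b c → L
  | .zero => 0
  | .some x y _ => x / y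

/-- `1 / y`. -/
def ww {a b c : L} : Pt a b c → L
  | .zero => 0
  | .some _ y _ => 1 / y

/-- The sum of two points, in terms of the line through them. -/
lemma add_data [DecidableEq L] (h2 : (2 : L) ≠ 0) {a b c : L}
    (hr : ∀ x : L, x ^ 3 + a * x ^ 2 + b * x + c ≠ 0)
    {x₁ y₁ x₂ y₂ : L} (h₁ : (crv a b c).toAffine.Nonsingular x₁ y₁)
    (h₂ : (crv a b c).toAffine.Nonsingular x₂ y₂) (hne : ¬ (x₁ = x₂ ∧ y₁ = -y₂)) :
    ∃ (l m X Y : L) (h : (crv a b c).toAffine.Nonsingular X (-Y)),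
      (WeierstrassCurve.Affine.Point.some x₁ y₁ h₁ + WeierstrassCurve.Affine.Point.some x₂ y₂ h₂ :
        Pt a b c) = WeierstrassCurve.Affine.Point.some X (-Y) h ∧ Y = l * X + m ∧
      y₁ = l * x₁ + m ∧ y₂ = l * x₂ + m ∧ a = l ^ 2 - x₁ - x₂ - X ∧
      b = 2 * l * m + x₁ * x₂ + x₁ * X + x₂ * X ∧ c = m ^ 2 - x₁ * x₂ * X ∧
      ((x₁ ≠ x₂ ∧ l * (x₁ - x₂) = y₁ - y₂) ∨
        (x₁ = x₂ ∧ y₁ = y₂ ∧ 2 * y₁ * l = 3 * x₁ ^ 2 + 2 * a * x₁ + b)) := by
  have e₁ := eqn h₁
  have e₂ := eqn h₂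
  have hy₁ : y₁ ≠ 0 := by
    intro h
    apply hr x₁
    rw [← e₁, h]
    ring
  have hneg : ∀ x y : L, (crv a b c).toAffine.negY x y = -y := by
    intro x y
    simp [WeierstrassCurve.Affine.negY, crv]
  have hne' : ¬ (x₁ = x₂ ∧ y₁ = (crv a b c).toAffine.negY x₂ y₂) := by
    rw [hneg]
    exact hne
  set l := (crv a b c).toAffine.slope x₁ x₂ y₁ y₂ with hl
  set X := (crv a b c).toAffine.addX x₁ x₂ l with hX
  have hXe : X = l ^ 2 - a - x₁ - x₂ := by
    rw [hX]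
    simp [WeierstrassCurve.Affine.addX, crv]
  set m := y₁ - l * x₁ with hm
  have hYe : (crv a b c).toAffine.addY x₁ x₂ y₁ l = -(l * X + m) := by
    rw [WeierstrassCurve.Affine.addY, hneg, WeierstrassCurve.Affine.negAddY, ← hX, hm]
    ring
  have hns := WeierstrassCurve.Affine.nonsingular_add h₁ h₂ hne'
  rw [← hl, ← hX, hYe] at hns
  have hs := WeierstrassCurve.Affine.Point.add_some hne' (h₁ := h₁) (h₂ := h₂)
  by_cases hx : x₁ = x₂
  · subst hx
    have hy : y₁ = y₂ := by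
      have h3 : (y₁ - y₂) * (y₁ + y₂) = 0 := by linear_combination e₁ - e₂
      rcases mul_eq_zero.1 h3 with h4 | h4
      · exact sub_eq_zero.1 h4
      · exact absurd ⟨rfl, eq_neg_of_add_eq_zero_left h4⟩ hne
    subst hy
    have hlv : 2 * y₁ * l = 3 * x₁ ^ 2 + 2 * a * x₁ + b := by
      have h5 : l = (3 * x₁ ^ 2 + 2 * a * x₁ + b) / (2 * y₁) := by
        rw [hl, WeierstrassCurve.Affine.slope_of_Y_ne rfl (by rw [hneg]; intro h; exact hne ⟨rfl, h⟩),
          hneg]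
        simp only [crv]
        congr 1
        · ring
        · ring
      rw [h5]
      field_simp
    refine ⟨l, m, X, l * X + m, hns, ?_, rfl, by rw [hm]; ring, by rw [hm]; ring, ?_, ?_, ?_,
      Or.inr ⟨rfl, rfl, hlv⟩⟩
    · rw [hs]
      congr 1
    · rw [hXe]; ring
    · rw [hXe, hm]
      linear_combination (-1) * hlv
    · rw [hXe, hm]
      linear_combination (-1) * e₁ + x₁ * hlv
  · have hlv : l * (x₁ - x₂) = y₁ - y₂ := by
      have h5 : l = (y₁ - y₂) / (x₁ - x₂) := by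
        rw [hl, WeierstrassCurve.Affine.slope_of_X_ne hx]
      rw [h5, div_mul_cancel₀ _ (sub_ne_zero.2 hx)]
    have hy2 : y₂ = l * x₂ + m := by
      rw [hm]
      linear_combination hlv
    have hb : b = 2 * l * m + x₁ * x₂ + x₁ * X + x₂ * X := by
      have h6 : (x₁ - x₂) * (b - (2 * l * m + x₁ * x₂ + x₁ * X + x₂ * X)) = 0 := by
        have h7 : y₁ = l * x₁ + m := by rw [hm]; ring
        rw [h7] at e₁
        rw [hy2] at e₂
        rw [hXe]
        linear_combination e₂ - e₁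
      exact sub_eq_zero.1 ((mul_eq_zero.1 h6).resolve_left (sub_ne_zero.2 hx))
    have hc : c = m ^ 2 - x₁ * x₂ * X := by
      have h7 : y₁ = l * x₁ + m := by rw [hm]; ring
      rw [h7] at e₁
      have h8 : a = l ^ 2 - x₁ - x₂ - X := by rw [hXe]; ring
      rw [h8, hb] at e₁
      linear_combination (-1) * e₁
    refine ⟨l, m, X, l * X + m, hns, ?_, rfl, by rw [hm]; ring, hy2, ?_, hb, hc,
      Or.inl ⟨hx, hlv⟩⟩
    · rw [hs]
      congr 1
    · rw [hXe]; ring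

/-- The sum of the three parameters. -/
lemma third {a b c x₁ y₁ x₂ y₂ l m X Y : L} (hY : Y = l * X + m) (hy₁ : y₁ = l * x₁ + m)
    (hy₂ : y₂ = l * x₂ + m) (ha : a = l ^ 2 - x₁ - x₂ - X)
    (hb : b = 2 * l * m + x₁ * x₂ + x₁ * X + x₂ * X) (hc : c = m ^ 2 - x₁ * x₂ * X)
    (hm : m ≠ 0) (h₁ : y₁ ≠ 0) (h₂ : y₂ ≠ 0) (h₃ : Y ≠ 0) :
    (1 + a * (-l / m) + b * (-l / m) ^ 2 + c * (-l / m) ^ 3) * (x₁ / y₁ + x₂ / y₂ + X / Y) =
      -((1 / m) * (a + 2 * b * (-l / m) + 3 * c * (-l / m) ^ 2)) ∧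
    1 / Y = (-l / m) * (X / Y) + 1 / m := by
  have hD : 1 + a * (-l / m) + b * (-l / m) ^ 2 + c * (-l / m) ^ 3 = y₁ * y₂ * Y / m ^ 3 := by
    rw [eq_div_iff (pow_ne_zero 3 hm)]
    field_simp
    rw [hY, hy₁, hy₂, ha, hb, hc]
    ring
  constructor
  · rw [hD]
    have e : y₁ * y₂ * Y / m ^ 3 * (x₁ / y₁ + x₂ / y₂ + X / Y) =
        (x₁ * y₂ * Y + x₂ * y₁ * Y + X * y₁ * y₂) / m ^ 3 := by
      field_simp
    rw [e]
    field_simp
    rw [hY, hy₁, hy₂, ha, hb, hc]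
    ring
  · field_simp
    rw [hY]
    ring

section Val

variable {Γ : Type*} [LinearOrderedCommGroupWithZero Γ] (v : Valuation L Γ)

lemma ml {x y : L} {g : Γ} (hx : v x ≤ 1) (hy : v y ≤ g) : v (x * y) ≤ g := by
  rw [map_mul]
  exact (mul_le_mul' hx hy).trans (one_mul g).le

lemma mr {x y : L} {g : Γ} (hx : v x ≤ g) (hy : v y ≤ 1) : v (x * y) ≤ g := by
  rw [mul_comm]
  exact ml v hy hx

lemma mlt {x y : L} (hx : v x ≤ 1) (hy : v y < 1) : v (x * y) < 1 :=
  lt_of_le_of_lt (ml v hx le_rfl) hy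

lemma mrt {x y : L} (hx : v x < 1) (hy : v y ≤ 1) : v (x * y) < 1 := by
  rw [mul_comm]
  exact mlt v hy hx

lemma pw {x : L} (hx : v x ≤ 1) (n : ℕ) : v (x ^ n) ≤ 1 := by
  rw [map_pow]
  exact pow_le_one' hx n

lemma pwt {x : L} (hx : v x < 1) {n : ℕ} (hn : n ≠ 0) : v (x ^ n) < 1 := by
  obtain ⟨k, rfl⟩ := Nat.exists_eq_succ_of_ne_zero hn
  rw [pow_succ]
  exact mlt v (pw v hx.le k) hx

lemma nat_le (n : ℕ) : v (n : L) ≤ 1 := by
  induction n with
  | zero => simp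
  | succ n ih =>
    rw [Nat.cast_succ]
    exact v.map_add_le ih v.map_one.le

lemma two_le : v (2 : L) ≤ 1 := by
  have := nat_le v 2
  simpa using this

lemma three_le : v (3 : L) ≤ 1 := by
  have := nat_le v 3
  simpa using this

/-- The point is near the origin. -/
def Near {a b c : L} (P : Pt a b c) : Prop := v (tt P) < 1 ∧ v (ww P) < 1

lemma near_zero {a b c : L} : Near v (0 : Pt a b c) := by
  constructor
  · change v (0 : L) < 1
    rw [map_zero]
    exact zero_lt_one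
  · change v (0 : L) < 1
    rw [map_zero]
    exact zero_lt_one

lemma neg_y {a b c x y : L} : (crv a b c).toAffine.negY x y = -y := by
  simp [WeierstrassCurve.Affine.negY, crv]

lemma tt_neg {a b c : L} (P : Pt a b c) : tt (-P) = -tt P := by
  cases P with
  | zero => exact neg_zero.symm
  | some x y h =>
    rw [WeierstrassCurve.Affine.Point.neg_some]
    change x / (crv a b c).toAffine.negY x y = -(x / y)
    rw [neg_y, div_neg]

lemma ww_neg {a b c : L} (P : Pt a b c) : ww (-P) = -ww P := by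
  cases P with
  | zero => exact neg_zero.symm
  | some x y h =>
    rw [WeierstrassCurve.Affine.Point.neg_some]
    change 1 / (crv a b c).toAffine.negY x y = -(1 / y)
    rw [neg_y, div_neg]

lemma near_neg {a b c : L} {P : Pt a b c} (h : Near v P) : Near v (-P) := by
  refine ⟨?_, ?_⟩
  · rw [tt_neg, Valuation.map_neg]
    exact h.1
  · rw [ww_neg, Valuation.map_neg]
    exact h.2

/-- The equation in terms of the parameters. -/
lemma tw {a b c x y : L} (hy : y ≠ 0) (h : y ^ 2 = x ^ 3 + a * x ^ 2 + b * x + c) :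
    1 / y = (x / y) ^ 3 + a * (x / y) ^ 2 * (1 / y) + b * (x / y) * (1 / y) ^ 2 +
      c * (1 / y) ^ 3 := by
  field_simp
  linear_combination h

variable {v}

/-- The value of `w` is at most the value of `t`. -/
lemma w_le {a b c t w : L} (ha : v a ≤ 1) (hb : v b ≤ 1) (hc : v c ≤ 1) (ht : v t < 1)
    (hw : v w < 1) (h : w = t ^ 3 + a * t ^ 2 * w + b * t * w ^ 2 + c * w ^ 3) : v w ≤ v t := by
  have h1 : v (a * t ^ 2 + b * t * w + c * w ^ 2) < 1 := by
    refine v.map_add_lt (v.map_add_lt ?_ ?_) ?_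
    · exact mlt v ha (pwt v ht two_ne_zero)
    · exact mlt v (ml v hb ht.le) hw
    · exact mlt v hc (pwt v hw two_ne_zero)
  have h2 : w * (1 - (a * t ^ 2 + b * t * w + c * w ^ 2)) = t ^ 2 * t := by
    linear_combination h
  have h3 := congrArg v h2
  rw [map_mul, v.map_one_sub_of_lt h1, mul_one] at h3
  rw [h3]
  exact ml v (pw v ht.le 2) le_rfl

/-- The third point. -/
lemma core {a b c x₁ y₁ x₂ y₂ l m X Y : L} (ha' : v a ≤ 1) (hb' : v b ≤ 1) (hc' : v c ≤ 1)
    (hY : Y = l * X + m) (hy₁ : y₁ = l * x₁ + m)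
    (hy₂ : y₂ = l * x₂ + m) (ha : a = l ^ 2 - x₁ - x₂ - X)
    (hb : b = 2 * l * m + x₁ * x₂ + x₁ * X + x₂ * X) (hc : c = m ^ 2 - x₁ * x₂ * X)
    (hm : m ≠ 0) (h₁ : y₁ ≠ 0) (h₂ : y₂ ≠ 0) (h₃ : Y ≠ 0)
    (t₁ : v (x₁ / y₁) < 1) (t₂ : v (x₂ / y₂) < 1)
    (hl : v (-l / m) < 1) (hn : v (1 / m) < 1) :
    v (x₁ / y₁ + x₂ / y₂ + X / Y) ≤ v (1 / m) ∧ v (X / Y) < 1 ∧ v (1 / Y) < 1 := by
  obtain ⟨h4, h5⟩ := third hY hy₁ hy₂ ha hb hc hm h₁ h₂ h₃
  have h6 : v (a * (-l / m) + b * (-l / m) ^ 2 + c * (-l / m) ^ 3) < 1 := by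
    refine v.map_add_lt (v.map_add_lt ?_ ?_) ?_
    · exact mlt v ha' hl
    · exact mlt v hb' (pwt v hl two_ne_zero)
    · exact mlt v hc' (pwt v hl three_ne_zero)
  have h7 : v (1 + a * (-l / m) + b * (-l / m) ^ 2 + c * (-l / m) ^ 3) = 1 := by
    have e : 1 + a * (-l / m) + b * (-l / m) ^ 2 + c * (-l / m) ^ 3 =
      1 + (a * (-l / m) + b * (-l / m) ^ 2 + c * (-l / m) ^ 3) := by ring
    rw [e]
    exact v.map_one_add_of_lt h6
  have h8 := congrArg v h4
  rw [map_mul, h7, one_mul, Valuation.map_neg] at h8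
  have h9 : v (a + 2 * b * (-l / m) + 3 * c * (-l / m) ^ 2) ≤ 1 := by
    refine v.map_add_le (v.map_add_le ha' ?_) ?_
    · exact ml v (ml v (two_le v) hb') hl.le
    · exact ml v (ml v (three_le v) hc') (pw v hl.le 2)
  have h10 : v (x₁ / y₁ + x₂ / y₂ + X / Y) ≤ v (1 / m) := by
    rw [h8]
    exact mr v le_rfl h9
  have h11 : v (X / Y) < 1 := by
    have e : X / Y = (x₁ / y₁ + x₂ / y₂ + X / Y) - (x₁ / y₁ + x₂ / y₂) := by ring
    rw [e]
    exact v.map_sub_lt (lt_of_le_of_lt h10 hn) (v.map_add_lt t₁ t₂)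
  refine ⟨h10, h11, ?_⟩
  rw [h5]
  exact v.map_add_lt (mlt v hl.le h11) hn

/-- The line through two different points. -/
lemma line_ne {a b c x₁ y₁ x₂ y₂ l m : L} (ha : v a ≤ 1) (hb : v b ≤ 1) (hc : v c ≤ 1)
    (e₁ : y₁ ^ 2 = x₁ ^ 3 + a * x₁ ^ 2 + b * x₁ + c)
    (e₂ : y₂ ^ 2 = x₂ ^ 3 + a * x₂ ^ 2 + b * x₂ + c) (h₁ : y₁ ≠ 0) (h₂ : y₂ ≠ 0)
    (hy₁ : y₁ = l * x₁ + m) (hy₂ : y₂ = l * x₂ + m) (hx : x₁ ≠ x₂)
    (t₁ : v (x₁ / y₁) < 1) (t₂ : v (x₂ / y₂) < 1) (w₁ : v (1 / y₁) < 1) (w₂ : v (1 / y₂) < 1) :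
    m ≠ 0 ∧ v (-l / m) < 1 ∧ v (1 / m) ≤ v (x₂ / y₂) := by
  have q₁ := tw h₁ e₁
  have q₂ := tw h₂ e₂
  have hw₂ := w_le ha hb hc t₂ w₂ q₂
  set t := x₁ / y₁ with ht
  set s := x₂ / y₂ with hs
  set w := 1 / y₁ with hw
  set z := 1 / y₂ with hz
  -- the bracket
  have hB : v (a * s ^ 2 + b * s * (w + z) + c * (w ^ 2 + w * z + z ^ 2)) < 1 := by
    refine v.map_add_lt (v.map_add_lt ?_ ?_) ?_
    · exact mlt v ha (pwt v t₂ two_ne_zero)
    · exact mlt v (ml v hb t₂.le) (v.map_add_lt w₁ w₂)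
    · exact mlt v hc (v.map_add_lt (v.map_add_lt (pwt v w₁ two_ne_zero) (mlt v w₁.le w₂))
        (pwt v w₂ two_ne_zero))
  have hB1 := v.map_one_sub_of_lt hB
  have hR : v (t ^ 2 + t * s + s ^ 2 + a * (t + s) * w + b * w ^ 2) < 1 := by
    refine v.map_add_lt (v.map_add_lt (v.map_add_lt (v.map_add_lt ?_ ?_) ?_) ?_) ?_
    · exact pwt v t₁ two_ne_zero
    · exact mlt v t₁.le t₂
    · exact pwt v t₂ two_ne_zero
    · exact mlt v (ml v ha (v.map_add_lt t₁ t₂).le) w₁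
    · exact mlt v hb (pwt v w₁ two_ne_zero)
  have hE : (w - z) * (1 - (a * s ^ 2 + b * s * (w + z) + c * (w ^ 2 + w * z + z ^ 2))) =
      (t - s) * (t ^ 2 + t * s + s ^ 2 + a * (t + s) * w + b * w ^ 2) := by
    linear_combination q₁ - q₂
  have hxt : x₁ = t / w := by
    rw [ht, hw]; field_simp
  have hxs : x₂ = s / z := by
    rw [hs, hz]; field_simp
  have hts : t - s ≠ 0 := by
    intro h0
    rw [h0, zero_mul] at hE
    have h3 : w - z = 0 := by
      rcases mul_eq_zero.1 hE with h4 | h4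
      · exact h4
      · rw [h4, map_zero] at hB1
        exact absurd hB1 zero_ne_one
    apply hx
    rw [hxt, hxs, sub_eq_zero.1 h0, sub_eq_zero.1 h3]
  have hm1 : m * (x₁ - x₂) = (t - s) * (y₁ * y₂) := by
    have h5 : t * y₁ = x₁ := by rw [ht]; field_simp
    have h6 : s * y₂ = x₂ := by rw [hs]; field_simp
    have h7 : (t - s) * (y₁ * y₂) = x₁ * y₂ - x₂ * y₁ := by
      linear_combination y₂ * h5 - y₁ * h6
    rw [h7, hy₁, hy₂]
    ring
  have hm : m ≠ 0 := by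
    intro h0
    rw [h0, zero_mul] at hm1
    exact mul_ne_zero hts (mul_ne_zero h₁ h₂) hm1.symm
  have hl1 : -l / m * (t - s) = w - z := by
    have h5 : (w - z) * (y₁ * y₂) = y₂ - y₁ := by
      rw [hw, hz]; field_simp
    have h6 : (w - z) * m * (y₁ * y₂) = -l * (t - s) * (y₁ * y₂) := by
      have h7 : y₂ - y₁ = -l * (x₁ - x₂) := by rw [hy₁, hy₂]; ring
      linear_combination m * h5 + m * h7 - l * hm1
    have h8 := mul_right_cancel₀ (mul_ne_zero h₁ h₂) h6
    field_simp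
    linear_combination (-1) * h8
  have hl2 : -l / m * (1 - (a * s ^ 2 + b * s * (w + z) + c * (w ^ 2 + w * z + z ^ 2))) =
      t ^ 2 + t * s + s ^ 2 + a * (t + s) * w + b * w ^ 2 := by
    refine mul_left_cancel₀ hts ?_
    rw [← hE, ← hl1]
    ring
  have hl3 := congrArg v hl2
  rw [map_mul, hB1, mul_one] at hl3
  have hl4 : v (-l / m) < 1 := by rw [hl3]; exact hR
  refine ⟨hm, hl4, ?_⟩
  have hn : 1 / m = z - (-l / m) * s := by
    have h5 : z * y₂ = 1 := by rw [hz]; field_simp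
    have h6 : s * y₂ = x₂ := by rw [hs]; field_simp
    have h7 : (1 / m) * y₂ = (z - (-l / m) * s) * y₂ := by
      have h8 : (z - (-l / m) * s) * y₂ = 1 + l / m * x₂ := by
        linear_combination h5 + (l / m) * h6
      rw [h8, hy₂]
      field_simp
      ring
    exact mul_right_cancel₀ h₂ h7
  rw [hn]
  exact v.map_sub_le hw₂ (ml v hl4.le le_rfl)

/-- The tangent at a point. -/
lemma line_eq {a b c x y l m : L} (h2 : (2 : L) ≠ 0) (ha : v a ≤ 1) (hb : v b ≤ 1) (hc : v c ≤ 1)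
    (e : y ^ 2 = x ^ 3 + a * x ^ 2 + b * x + c) (h : y ≠ 0)
    (hy : y = l * x + m) (hl : 2 * y * l = 3 * x ^ 2 + 2 * a * x + b)
    (ht : v (x / y) < 1) (hw : v (1 / y) < 1) :
    m ≠ 0 ∧ v (-l / m) < 1 ∧ v (1 / m) ≤ v (2 * (x / y)) := by
  have q := tw h e
  have hwl := w_le ha hb hc ht hw q
  have h3 : (x / y) * y = x := by field_simp
  have h4 : (1 / y) * y = 1 := by field_simp
  set t := x / y with htd
  set w := 1 / y with hwd
  have hU : v (a * t ^ 2 + 2 * b * t * w + 3 * c * w ^ 2) < 1 := by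
    refine v.map_add_lt (v.map_add_lt ?_ ?_) ?_
    · exact mlt v ha (pwt v ht two_ne_zero)
    · exact mlt v (ml v (ml v (two_le v) hb) ht.le) hw
    · exact mlt v (ml v (three_le v) hc) (pwt v hw two_ne_zero)
  have hU1 := v.map_one_sub_of_lt hU
  have hU0 : 1 - (a * t ^ 2 + 2 * b * t * w + 3 * c * w ^ 2) ≠ 0 := by
    intro h0
    rw [h0, map_zero] at hU1
    exact zero_ne_one hU1
  have hm1 : 2 * m = -((1 - (a * t ^ 2 + 2 * b * t * w + 3 * c * w ^ 2)) * y) := by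
    have h5 : y * (2 * m) = y * (-((1 - (a * t ^ 2 + 2 * b * t * w + 3 * c * w ^ 2)) * y)) := by
      have h6 : m = y - l * x := by rw [hy]; ring
      have h7 : y * (-((1 - (a * t ^ 2 + 2 * b * t * w + 3 * c * w ^ 2)) * y)) =
          -(y ^ 2 - (a * (t * y) ^ 2 + 2 * b * (t * y) * (w * y) + 3 * c * (w * y) ^ 2)) := by
        ring
      rw [h7, h3, h4, h6]
      linear_combination 3 * e - x * hl
    exact mul_left_cancel₀ h h5
  have hm : m ≠ 0 := by
    intro h0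
    rw [h0, mul_zero, eq_comm, neg_eq_zero] at hm1
    exact mul_ne_zero hU0 h hm1
  have hn : (1 / m) * (1 - (a * t ^ 2 + 2 * b * t * w + 3 * c * w ^ 2)) = -(2 * w) := by
    have h5 : (1 / m) * (1 - (a * t ^ 2 + 2 * b * t * w + 3 * c * w ^ 2)) * y = -(2 * w) * y := by
      have h6 : (1 - (a * t ^ 2 + 2 * b * t * w + 3 * c * w ^ 2)) * y = -(2 * m) := by
        rw [hm1]; ring
      rw [mul_assoc, h6]
      have h8 : -(2 * w) * y = -2 := by linear_combination (-2) * h4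
      rw [h8]
      field_simp
    exact mul_right_cancel₀ h h5
  have hn1 := congrArg v hn
  rw [map_mul, hU1, mul_one, Valuation.map_neg] at hn1
  have hll : (-l / m) * (1 - (a * t ^ 2 + 2 * b * t * w + 3 * c * w ^ 2)) =
      3 * t ^ 2 + 2 * a * t * w + b * w ^ 2 := by
    have h5 : (-l / m) * (1 - (a * t ^ 2 + 2 * b * t * w + 3 * c * w ^ 2)) =
        -l * ((1 / m) * (1 - (a * t ^ 2 + 2 * b * t * w + 3 * c * w ^ 2))) := by
      ring
    rw [h5, hn]
    have h6 : (-l * (-(2 * w))) * y ^ 2 = (3 * t ^ 2 + 2 * a * t * w + b * w ^ 2) * y ^ 2 := by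
      have h7 : (3 * t ^ 2 + 2 * a * t * w + b * w ^ 2) * y ^ 2 =
          3 * (t * y) ^ 2 + 2 * a * (t * y) * (w * y) + b * (w * y) ^ 2 := by ring
      rw [h7, h3, h4]
      linear_combination hl + (2 * l * y) * h4
    exact mul_right_cancel₀ (pow_ne_zero 2 h) h6
  have hl1 := congrArg v hll
  rw [map_mul, hU1, mul_one] at hl1
  refine ⟨hm, ?_, ?_⟩
  · rw [hl1]
    refine v.map_add_lt (v.map_add_lt ?_ ?_) ?_
    · exact mlt v (three_le v) (pwt v ht two_ne_zero)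
    · exact mlt v (ml v (ml v (two_le v) ha) ht.le) hw
    · exact mlt v hb (pwt v hw two_ne_zero)
  · rw [hn1, map_mul, map_mul]
    exact mul_le_mul' le_rfl hwl

lemma y_ne {a b c x y : L} (hr : ∀ x : L, x ^ 3 + a * x ^ 2 + b * x + c ≠ 0)
    (e : y ^ 2 = x ^ 3 + a * x ^ 2 + b * x + c) : y ≠ 0 := by
  intro h
  apply hr x
  rw [← e, h]
  ring

/-- Doubling near the origin. -/
lemma near_double [DecidableEq L] (h2 : (2 : L) ≠ 0) {a b c : L} (ha : v a ≤ 1) (hb : v b ≤ 1)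
    (hc : v c ≤ 1) (hr : ∀ x : L, x ^ 3 + a * x ^ 2 + b * x + c ≠ 0) (P : Pt a b c)
    (hP : Near v P) : Near v (P + P) ∧ v (tt (P + P)) ≤ v (2 * tt P) := by
  cases P with
  | zero =>
    change Near v ((0 : Pt a b c) + 0) ∧ v (tt ((0 : Pt a b c) + 0)) ≤ v (2 * 0)
    rw [add_zero]
    refine ⟨near_zero v, ?_⟩
    change v 0 ≤ _
    rw [map_zero]
    exact zero_le
  | some x y h =>
    have e := eqn h
    have hy := y_ne hr e
    have hne : ¬ (x = x ∧ y = -y) := by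
      rintro ⟨-, h3⟩
      have h4 : (2 : L) * y = 0 := by linear_combination h3
      exact mul_ne_zero h2 hy h4
    obtain ⟨l, m, X, Y, h', hs, hY, hy₁, hy₂, hla, hlb, hlc, hl⟩ := add_data h2 hr h h hne
    have hl' : 2 * y * l = 3 * x ^ 2 + 2 * a * x + b := by
      rcases hl with ⟨h5, -⟩ | ⟨-, -, h5⟩
      · exact absurd rfl h5
      · exact h5
    have ht : v (x / y) < 1 := hP.1
    have hw : v (1 / y) < 1 := hP.2
    obtain ⟨hm, hl3, hn⟩ := line_eq h2 ha hb hc e hy hy₁ hl' ht hw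
    have h2t : v (2 * (x / y)) < 1 := mlt v (two_le v) ht
    have hYn : Y ≠ 0 := by
      have := y_ne hr (eqn h')
      simpa using this
    obtain ⟨k1, k2, k3⟩ := core ha hb hc hY hy₁ hy₂ hla hlb hlc hm hy hy hYn ht ht hl3
      (lt_of_le_of_lt hn h2t)
    rw [hs]
    have e1 : tt (WeierstrassCurve.Affine.Point.some X (-Y) h' : Pt a b c) = -(X / Y) := by
      change X / -Y = _
      rw [div_neg]
    have e2 : ww (WeierstrassCurve.Affine.Point.some X (-Y) h' : Pt a b c) = -(1 / Y) := by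
      change 1 / -Y = _
      rw [div_neg]
    refine ⟨⟨?_, ?_⟩, ?_⟩
    · rw [e1, Valuation.map_neg]; exact k2
    · rw [e2, Valuation.map_neg]; exact k3
    · rw [e1, Valuation.map_neg]
      change _ ≤ v (2 * (x / y))
      have e3 : X / Y = (x / y + x / y + X / Y) - 2 * (x / y) := by ring
      rw [e3]
      exact v.map_sub_le (k1.trans hn) le_rfl

/-- Addition near the origin. -/
lemma near_add [DecidableEq L] (h2 : (2 : L) ≠ 0) {a b c : L} (ha : v a ≤ 1) (hb : v b ≤ 1)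
    (hc : v c ≤ 1) (hr : ∀ x : L, x ^ 3 + a * x ^ 2 + b * x + c ≠ 0) (P Q : Pt a b c)
    (hP : Near v P) (hQ : Near v Q) : Near v (P + Q) ∧ v (tt (P + Q) - tt P) ≤ v (tt Q) := by
  cases P with
  | zero =>
    change Near v ((0 : Pt a b c) + Q) ∧ v (tt ((0 : Pt a b c) + Q) - 0) ≤ v (tt Q)
    rw [zero_add, sub_zero]
    exact ⟨hQ, le_rfl⟩
  | some x₁ y₁ h₁ =>
    cases Q with
    | zero =>
      change Near v ((WeierstrassCurve.Affine.Point.some x₁ y₁ h₁ : Pt a b c) + 0) ∧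
        v (tt ((WeierstrassCurve.Affine.Point.some x₁ y₁ h₁ : Pt a b c) + 0) -
          tt (WeierstrassCurve.Affine.Point.some x₁ y₁ h₁ : Pt a b c)) ≤ v 0
      rw [add_zero, sub_self]
      exact ⟨hP, le_rfl⟩
    | some x₂ y₂ h₂ =>
      have e₁ := eqn h₁
      have e₂ := eqn h₂
      have n₁ := y_ne hr e₁
      have n₂ := y_ne hr e₂
      by_cases hne : x₁ = x₂ ∧ y₁ = -y₂
      · obtain ⟨hx, hy⟩ := hne
        have h0 : (WeierstrassCurve.Affine.Point.some x₁ y₁ h₁ +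
            WeierstrassCurve.Affine.Point.some x₂ y₂ h₂ : Pt a b c) = 0 := by
          refine WeierstrassCurve.Affine.Point.add_of_Y_eq hx ?_
          rw [neg_y]
          exact hy
        rw [h0]
        refine ⟨near_zero v, ?_⟩
        change v (0 - x₁ / y₁) ≤ v (x₂ / y₂)
        rw [zero_sub, Valuation.map_neg, hx, hy, div_neg, Valuation.map_neg]
      · by_cases hx : x₁ = x₂
        · have hy : y₁ = y₂ := by
            subst hx
            have h3 : (y₁ - y₂) * (y₁ + y₂) = 0 := by linear_combination e₁ - e₂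
            rcases mul_eq_zero.1 h3 with h4 | h4
            · exact sub_eq_zero.1 h4
            · exact absurd ⟨rfl, eq_neg_of_add_eq_zero_left h4⟩ hne
          subst hx
          subst hy
          obtain ⟨k1, k2⟩ := near_double h2 ha hb hc hr _ hP
          refine ⟨k1, ?_⟩
          refine v.map_sub_le (k2.trans ?_) le_rfl
          exact ml v (two_le v) le_rfl
        · obtain ⟨l, m, X, Y, h', hs, hY, hy₁, hy₂, hla, hlb, hlc, -⟩ :=
            add_data h2 hr h₁ h₂ hne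
          have t₁ : v (x₁ / y₁) < 1 := hP.1
          have w₁ : v (1 / y₁) < 1 := hP.2
          have t₂ : v (x₂ / y₂) < 1 := hQ.1
          have w₂ : v (1 / y₂) < 1 := hQ.2
          obtain ⟨hm, hl3, hn⟩ := line_ne ha hb hc e₁ e₂ n₁ n₂ hy₁ hy₂ hx t₁ t₂ w₁ w₂
          have hYn : Y ≠ 0 := by
            have := y_ne hr (eqn h')
            simpa using this
          obtain ⟨k1, k2, k3⟩ := core ha hb hc hY hy₁ hy₂ hla hlb hlc hm n₁ n₂ hYn t₁ t₂ hl3
            (lt_of_le_of_lt hn t₂)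
          rw [hs]
          have e1 : tt (WeierstrassCurve.Affine.Point.some X (-Y) h' : Pt a b c) = -(X / Y) := by
            change X / -Y = _
            rw [div_neg]
          have e2 : ww (WeierstrassCurve.Affine.Point.some X (-Y) h' : Pt a b c) = -(1 / Y) := by
            change 1 / -Y = _
            rw [div_neg]
          refine ⟨⟨?_, ?_⟩, ?_⟩
          · rw [e1, Valuation.map_neg]; exact k2
          · rw [e2, Valuation.map_neg]; exact k3
          · rw [e1]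
            change v (-(X / Y) - x₁ / y₁) ≤ v (x₂ / y₂)
            have e3 : -(X / Y) - x₁ / y₁ = x₂ / y₂ - (x₁ / y₁ + x₂ / y₂ + X / Y) := by ring
            rw [e3]
            exact v.map_sub_le le_rfl (k1.trans hn)

end Val

end Pool.PNF.EP
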